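import Pool.Agent.H88.MCR.Stmts

/-!
Row ARM of the board for MP_ffb5eb_co: arcs of a mapped list, and of a list with negated side.
-/

namespace Pool.MCR

theorem arm_thm : ARM_S := by
  intro L M f l
  have h1 : ∀ s, arcs s (l.map f) = (arcs s l).map (fun A => (A.1, f A.2.1, f A.2.2)) := by
    induction l with
    | nil => intro s; rfl
    | cons a t ih =>
      intro s
      cases t with
      | nil => rfl
      | cons b t =>
        show (s, f a, f b) :: arcs (!s) ((b :: t).map f) = _
        rw [ih (!s)]
        rfl
  have h2 : ∀ s, arcs (!s) l = (arcs s l).map (fun A => (!A.1, A.2.1, A.2.2)) := by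
    clear h1
    induction l with
    | nil => intro s; rfl
    | cons a t ih =>
      intro s
      cases t with
      | nil => rfl
      | cons b t =>
        show (!s, a, b) :: arcs (!(!s)) (b :: t) = _
        rw [ih (!s)]
        rfl
  exact fun s => ⟨h1 s, h2 s⟩

end Pool.MCR
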