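import Pool.Agent.H88.MCR.Stmts

/-!
Row CVX of the board for MP_ffb5eb_co: the convex drawing.
-/

namespace Pool.MCR

theorem cvx_thm : CVX_S := by
  intro n
  have hA : ∀ x y : ℕ, (⟨fun x => x, fun _ _ => [], fun _ _ => true⟩ : Diag ℕ).A x y =
      [(true, x, y)] := fun x y => rfl
  refine ⟨fun x _ y _ h => h, ?_, ?_, ?_, ?_, ?_, ?_, ?_, ?_⟩
  · intro x _ y _ z _ _ h
    exact absurd h List.not_mem_nil
  · intro x _ y _ _
    exact List.nodup_nil
  · intro x _ y _ z _ t _ _ _ c h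
    exact absurd h List.not_mem_nil
  · intro x _ y _ _ c h
    exact absurd h List.not_mem_nil
  · intro x _ y _ _ s a b h
    rw [hA, List.mem_singleton] at h
    obtain ⟨rfl, rfl, rfl⟩ : s = true ∧ a = x ∧ b = y := by
      simpa using h
    rw [hA]
    exact List.mem_singleton.2 rfl
  · intro x _ y _ z _ _ _ _ A hA1 B hB1 hC
    rw [hA, List.mem_singleton] at hA1 hB1
    subst hA1 hB1
    obtain ⟨-, h⟩ := hC
    unfold Inter Btw Out at h
    dsimp only at h
    omega
  · intro x _ y _ _ A hA1 B hB1 hC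
    rw [hA, List.mem_singleton] at hA1 hB1
    subst hA1 hB1
    obtain ⟨-, h⟩ := hC
    unfold Inter Btw Out at h
    dsimp only at h
    omega
  · intro x _ y _ z _ t _ _ _ _ _ _ _ A hA1 B hB1 A' hA2 B' hB2 _ _
    rw [hA, List.mem_singleton] at hA1 hB1 hA2 hB2
    subst hA1 hB1 hA2 hB2
    exact ⟨rfl, rfl⟩

end Pool.MCR
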