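import Pool.Agent.H88.MCR.Stmts

/-!
Row TTH of the board for MP_ffb5eb_co: twisting keeps the thrackle property.
-/

namespace Pool.MCR

theorem tth_thm (h1 : OLD_S) (h2 : TWA_S) (h3 : TWC_S) : TTH_S := by
  intro L _ n D w x T hD hT hw hx hxw hF
  obtain ⟨o1, -, o3⟩ := h1 L
  have o2 := (h1 (L ×ₗ ℤ)).2.1
  have o3' := (h1 (L ×ₗ ℤ)).2.2
  obtain ⟨-, t2, t3⟩ := h2 L n D w x hD hw hx hxw hF.1
  obtain ⟨-, -, -, -, c5⟩ := h3 L n D w x hD hw hx hxw hF
  -- the twisted edge against another one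
  have key : ∀ a < n, ∀ b < n, ∀ c < n, ∀ d < n, a ≠ b → c ≠ d → a ≠ c → a ≠ d → b ≠ c →
      b ≠ d → (T a b ∨ T b a) → (T c d ∨ T d c) → ((a = w ∧ b = x) ∨ (a = x ∧ b = w)) →
      EX ((twist D w x).A a b) ((twist D w x).A c d) := by
    intro a ha b hb c hc d hd hab hcd hac had hbc hbd hTab hTcd hh
    rcases hh with ⟨rfl, rfl⟩ | ⟨rfl, rfl⟩
    · exact c5 c hc d hd hcd hac.symm hbc.symm had.symm hbd.symm
        (hT a ha b hb c hc d hd hab hcd hac had hbc hbd hTab hTcd)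
    · have h4 := c5 c hc d hd hcd hbc.symm hac.symm hbd.symm had.symm
        (hT b hb a ha c hc d hd hab.symm hcd hbc hbd hac had hTab.symm hTcd)
      have h5 := (o2 ((twist D b a).A b a) ((twist D b a).A a b) ((twist D b a).A c d)
        (fun t p q h => (t2 t p q).1 h) (fun t p q h => (t2 t q p).2 h)).2.2.2.2.1
      exact h5.1 h4
  intro a ha b hb c hc d hd hab hcd hac had hbc hbd hTab hTcd
  by_cases hA : (a = w ∧ b = x) ∨ (a = x ∧ b = w)
  · exact key a ha b hb c hc d hd hab hcd hac had hbc hbd hTab hTcd hA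
  by_cases hB : (c = w ∧ d = x) ∨ (c = x ∧ d = w)
  · exact (o3' _ _).2.2.1 (key c hc d hd a ha b hb hcd hab hac.symm hbc.symm had.symm hbd.symm
      hTcd hTab hB)
  rw [t3 a b (fun h => hA (Or.inl h)) (fun h => hA (Or.inr h)),
    t3 c d (fun h => hB (Or.inl h)) (fun h => hB (Or.inr h))]
  exact (o1 _ _).2.2.2 (hT a ha b hb c hc d hd hab hcd hac had hbc hbd hTab hTcd)

end Pool.MCR
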